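import Pool.Agent.H815.QC.Stm

/-!
# Project QC (helper815): `S_R5`
-/

set_option autoImplicit false

namespace Pool.Agent.H154.QC

open Pool.Agent.H815.QC
open Pool.Agent.Y110.FJ Pool.Agent.T2H65.GP

/-- the standard subgroup of a set with at most one element is abelian -/
theorem std_comm_of {V : Type} {Λ : SimpleGraph V} {S : V → Prop} (hS : ¬ Two S) {x y : P2 Λ}
    (hx : x ∈ std Λ (B2 V) S) (hy : y ∈ std Λ (B2 V) S) : x * y = y * x := by
  by_cases h : ∃ v, S v
  · obtain ⟨v, hv⟩ := h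
    have h1 : std Λ (B2 V) S ≤ vg Λ (B2 V) v := by
      apply std_le
      intro w hw
      have h2 : w = v := by
        by_contra hne
        exact hS ⟨w, v, hw, hv, hne⟩
      rw [h2]
    obtain ⟨a, rfl⟩ := h1 hx
    obtain ⟨b, rfl⟩ := h1 hy
    rw [← map_mul, ← map_mul]
    congr 1
    exact mul_comm (G := Multiplicative ℤ) a b
  · have h1 : std Λ (B2 V) S ≤ ⊥ := by
      apply std_le
      intro w hw
      exact absurd ⟨w, hw⟩ h
    have h2 : x = 1 := by simpa using h1 hx
    rw [h2, one_mul, mul_one]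

theorem R5_proof : Pool.Agent.H815.QC.S_R5 := by
  intro V _ Λ N _ β hβ b S hNA
  by_contra hS
  obtain ⟨x, hx, y, hy, hne⟩ := hNA
  apply hne
  apply hβ
  have h1 := std_comm_of hS (mem_pb.1 hx) (mem_pb.1 hy)
  rw [map_mul, map_mul]
  have e1 : b⁻¹ * β x * b * (b⁻¹ * β y * b) = b⁻¹ * (β x * β y) * b := by group
  have e2 : b⁻¹ * β y * b * (b⁻¹ * β x * b) = b⁻¹ * (β y * β x) * b := by group
  rw [e1, e2] at h1
  exact mul_left_cancel (mul_right_cancel h1)

end Pool.Agent.H154.QC
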